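import Pool.Agent.K1H62.MC.Low
import Pool.Agent.K1H9.MC.Geo
import Pool.Agent.K1H57.MC.Pot
import Pool.Agent.K1H22.MC.DNE
import Pool.Agent.K1H59.MC.Lpos
import Pool.Agent.K1H68.MC.Scal
import Pool.Agent.K1H68.MC.Rint
import Pool.Agent.K1H16.MC.Out
import Pool.Agent.K1H16.MC.Bdy
import Pool.Agent.K1H87.MC.Afd
import Pool.Agent.K1H24.MC.Orthc
import Pool.Agent.K1H48.MC.Orth
import Pool.Agent.K1H92.MC.Up
import Pool.Agent.K1H9.MC.Coef
import Pool.Agent.K1H41.MC.Dec
import Pool.Agent.K1H61.MC.Rpos

/-! # MP_69a10d_gt: a Euclidean exterior which is not a maximal capacity extension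

There are a bounded smooth open convex `Ω` in three space and an admissible asymptotically flat
extension of the Bartnik data of `∂Ω` in which the capacity of the boundary is strictly larger than
the Euclidean capacity of `∂Ω`. This is the negated form of Q1.

`Ω` is the solid prolate spheroid `|x - p| + |x + p| < 4`, `|p| = 1`, with the explicit harmonic
potential `u = 1 - log ((s + 2) / (s - 2)) / log 3`, `s = |x - p| + |x + p|`. The extension is the
exterior of `Ω` with the metric `(1 - K t ^ 2 u ^ 2) ^ 4 diag (exp (2 t a_i))`. Here the `a_i` are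
second derivatives of one function `F` with compact support, chosen such that the linearised scalar
curvature of `diag (2 a_i)` vanishes identically and the first variation of the Dirichlet integral is
positive; the conformal factor makes the scalar curvature nonnegative, does not change the metric and
the mean curvature on the boundary, and changes the capacity only by `O (t ^ 2)`. -/

set_option autoImplicit false

namespace Pool.Agent.Results.MP_69a10d_gt.SpheroidExtension

open Pool.Agent.K1H62.MC

/-- The exterior of some bounded smooth open convex domain `Ω` with the Euclidean metric is not a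
maximal capacity extension: `(Ωᶜ, g)` is an admissible asymptotically flat extension of the Bartnik
data of `∂Ω` with larger capacity of the boundary. -/
theorem result : ∃ (Ω : Set E) (f : E → ℝ) (g : Met),
    SmoothConvex Ω f ∧ AdmissibleExt Ω f g ∧ cap eu Ωᶜ < cap g Ωᶜ := by
  have hG : S_GEO := Pool.Agent.K1H9.MC.geo
  have hP : S_POT := Pool.Agent.K1H57.MC.pot
  have hD : S_DEC := Pool.Agent.K1H41.MC.dec
  have hSM : S_SM := Pool.Agent.K1H16.MC.sm
  exact asm hG hP hD (Pool.Agent.K1H59.MC.lpos hG hP Pool.Agent.K1H22.MC.dne) Pool.Agent.K1H68.MC.scal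
    Pool.Agent.K1H16.MC.out Pool.Agent.K1H61.MC.rpos (Pool.Agent.K1H68.MC.rint hSM) Pool.Agent.K1H87.MC.afd
    Pool.Agent.K1H16.MC.bdy hSM Pool.Agent.K1H24.MC.t_ORTHC Pool.Agent.K1H48.MC.t_ORTH
    Pool.Agent.K1H92.MC.up Pool.Agent.K1H9.MC.coef Pool.Agent.K1H92.MC.ext low

end Pool.Agent.Results.MP_69a10d_gt.SpheroidExtension
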